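import Pool.Agent.Helper18.EW.Goals

set_option autoImplicit false

namespace Pool.Agent.Helper2.EW

open Finset
open Pool.Agent.Helper18.EW
open Pool.Agent.Helper43.Hw (T na va lz Play aa ac sc oo sk U Dd Sd Pn nx bb np)
open Pool.Agent.Helper43.Gm (st mv nn)

theorem st_congr {κ κ' : ℕ → ℕ} {z : ℕ} (h : ∀ y < z, κ y = κ' y) (c : ℕ) :
    st κ c z = st κ' c z := by
  unfold st
  congr 1
  apply Finset.filter_congr
  intro y hy
  rw [h y (Finset.mem_range.1 hy)]

theorem mv_congr {κ κ' x x' : ℕ → ℕ} {z : ℕ} (h : ∀ y < z, κ y = κ' y) (h' : ∀ y < z, x y = x' y)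
    (ν : ℕ → ℕ) (c : ℕ) : mv κ x ν c z = mv κ' x' ν c z := by
  unfold mv
  apply Finset.filter_congr
  intro y hy
  rw [h y (Finset.mem_range.1 hy), h' y (Finset.mem_range.1 hy)]

theorem va_congr {μ R : ℕ} {κ κ' x x' : ℕ → ℕ} {z : ℕ} (h : ∀ y ≤ z, κ y = κ' y)
    (h' : ∀ y ≤ z, x y = x' y) (c : ℕ) : va μ R κ x c z = va μ R κ' x' c z := by
  have h1 : ∀ y < z, κ y = κ' y := fun y hy => h y hy.le
  have h2 : ∀ y < z, x y = x' y := fun y hy => h' y hy.le
  unfold va nn
  rw [st_congr h1, mv_congr h1 h2, h z le_rfl, h' z le_rfl]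

theorem va_congr' {μ R : ℕ} {κ κ' x x' : ℕ → ℕ} {z : ℕ} (h : ∀ y ≤ z, κ y = κ' y)
    (h' : ∀ y < z, x y = x' y) (c : ℕ) (hc : κ z ≠ c) :
    va μ R κ x c z = va μ R κ' x' c z := by
  have h1 : ∀ y < z, κ y = κ' y := fun y hy => h y hy.le
  have hc' : κ' z ≠ c := by rw [← h z le_rfl]; exact hc
  unfold va nn
  rw [st_congr h1, mv_congr h1 h', if_neg hc, if_neg hc', h z le_rfl]

theorem goalE2 : GoalE2 := by
  intro μ R N τ κ x h1 h2 hP ht hτ hk hN
  set κ2 : ℕ → ℕ := fun y => if y < τ then κ y else κ τ with hκ2
  set x2 : ℕ → ℕ := fun y => if y < τ then x y else na μ R y with hx2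
  have k1 : ∀ y, y < τ → κ2 y = κ y := fun y hy => if_pos hy
  have k2 : ∀ y, τ ≤ y → κ2 y = κ τ := fun y hy => if_neg (not_lt.2 hy)
  have x1 : ∀ y, y < τ → x2 y = x y := fun y hy => if_pos hy
  have x2' : ∀ y, τ ≤ y → x2 y = na μ R y := fun y hy => if_neg (not_lt.2 hy)
  have kle : ∀ y ≤ τ, κ2 y = κ y := by
    intro y hy
    rcases Nat.lt_or_ge y τ with h | h
    · exact k1 y h
    · rw [k2 y h, le_antisymm hy h]
  refine ⟨?_, ?_, ?_⟩
  · exact
      { mono := by
          intro y hy
          rcases Nat.lt_or_ge (y + 1) τ with h | h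
          · rw [k1 y (by omega), k1 _ h]; exact hP.mono y hy
          · rcases Nat.lt_or_ge y τ with h' | h'
            · have h3 : y + 1 = τ := by omega
              rw [k1 y h', k2 _ h, ← h3]
              exact hP.mono y hy
            · rw [k2 y h', k2 _ h]
        le := by
          intro y hy
          rcases Nat.lt_or_ge y τ with h | h
          · rw [k1 y h]; exact hP.le y hy
          · rw [k2 y h]; exact hN.le
        lt := by
          intro y hy
          rcases Nat.lt_or_ge y τ with h | h
          · rw [x1 y h]; exact hP.lt y hy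
          · rw [x2' y h]; unfold na; omega
        nat := by
          intro y hy h3
          rcases Nat.lt_or_ge y τ with h | h
          · rw [k1 y h] at h3; rw [x1 y h]; exact hP.nat y hy h3
          · rw [x2' y h]
        fin := by
          intro y hy h3
          rcases Nat.lt_or_ge y τ with h | h
          · rw [k1 y h] at h3; rw [x1 y h]; exact hP.fin y hy h3
          · rw [k2 y h] at h3; omega
        inc := by
          intro y hy h3 h4
          rcases Nat.lt_or_ge (y + 1) τ with h | h
          · rw [x1 y (by omega)] at h3 ⊢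
            rw [x1 _ h]
            rw [k1 _ h, k1 y (by omega)] at h4
            exact hP.inc y hy h3 h4
          · rcases Nat.lt_or_ge y τ with h' | h'
            · exfalso
              have h5 : y = τ - 1 := by omega
              rw [k1 y h', k2 _ h, h5] at h4
              omega
            · rw [x2' y h'] at h3 ⊢
              rw [x2' _ h]
              unfold na at h3 ⊢
              omega
        lastκ := by
          rw [k2 (R - 1) (by omega), k2 (R - 2) (by omega)]
        lastx := by
          intro _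
          rw [x2' (R - 1) (by omega)]
          unfold na
          omega }
  · intro z hz
    unfold lz
    refine Finset.sum_congr rfl fun c _ => ?_
    exact va_congr (fun y hy => k1 y (by omega)) (fun y hy => x1 y (by omega)) c
  · unfold lz
    have h3 : κ τ ∈ Finset.range N := Finset.mem_range.2 hN
    rw [← Finset.add_sum_erase _ _ h3, ← Finset.add_sum_erase _ _ h3]
    have h4 : ∑ c ∈ (Finset.range N).erase (κ τ), va μ R κ2 x2 c τ =
        ∑ c ∈ (Finset.range N).erase (κ τ), va μ R κ x c τ := by
      refine Finset.sum_congr rfl fun c hc => ?_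
      refine va_congr' kle (fun y hy => x1 y hy) c ?_
      rw [k2 τ le_rfl]
      exact (Finset.ne_of_mem_erase hc).symm
    have h5 : va μ R κ2 x2 (κ τ) τ = 0 := by
      unfold va nn
      rw [k2 τ le_rfl, if_neg (lt_irrefl _), if_neg (lt_irrefl _), if_pos rfl, x2' τ le_rfl]
      unfold na
      omega
    have h6 : va μ R κ x (κ τ) τ = x τ := by
      unfold va nn
      rw [if_neg (lt_irrefl _), if_neg (lt_irrefl _), if_pos rfl]
    rw [h4, h5, h6]
    omega

end Pool.Agent.Helper2.EW
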