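import Pool.Agent.Helper18.EW.Goals4

/-!
# Packet GT of project EW: translation in `x` and the general order of vanishing
-/

set_option autoImplicit false

namespace Pool.Agent.Helper2.EW

open Finset
open Pool.Agent.Lead.Sh
open Pool.Agent.Helper18.EW

/-- the coefficient of `X ^ i` in `(X - t) ^ n` -/
def TT (t : ℂ) (n i : ℕ) : ℂ := (-t) ^ (n - i) * (n.choose i : ℂ)

theorem TT_eq_zero (t : ℂ) {n i : ℕ} (h : n < i) : TT t n i = 0 := by
  rw [TT, Nat.choose_eq_zero_of_lt h]; simp

theorem sum_TT_X (t : ℂ) (n : ℕ) :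
    ∑ i ∈ range (n + 1), TT t n i • (Polynomial.X : Polynomial ℂ) ^ i =
      (Polynomial.X - Polynomial.C t) ^ n := by
  rw [sub_eq_add_neg, add_pow]
  apply sum_congr rfl
  intro i _
  rw [TT, ← Polynomial.C_neg, ← Polynomial.C_pow, Polynomial.smul_eq_C_mul, Polynomial.C_mul]
  have : Polynomial.C (n.choose i : ℂ) = (n.choose i : Polynomial ℂ) := by simp
  rw [this]
  ring

theorem sum_TT_E (t : ℂ) (n a : ℕ) (x : ℂ) :
    ∑ i ∈ range (n + 1), TT t n i * ((i.choose a : ℂ) * x ^ (i - a)) =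
      (n.choose a : ℂ) * (x - t) ^ (n - a) := by
  rcases lt_or_ge n a with h | h
  · rw [Nat.choose_eq_zero_of_lt h]
    rw [Nat.cast_zero, zero_mul]
    apply sum_eq_zero
    intro i hi
    rw [mem_range] at hi
    rw [Nat.choose_eq_zero_of_lt (show i < a by omega)]
    simp
  · obtain ⟨q, rfl⟩ := Nat.exists_eq_add_of_le h
    rw [add_assoc, sum_range_add]
    have h0 : ∑ i ∈ range a, TT t (a + q) i * ((i.choose a : ℂ) * x ^ (i - a)) = 0 := by
      apply sum_eq_zero
      intro i hi
      rw [mem_range] at hi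
      rw [Nat.choose_eq_zero_of_lt hi]
      simp
    rw [h0, zero_add, Nat.add_sub_cancel_left, sub_eq_add_neg x t, add_pow, mul_sum]
    apply sum_congr rfl
    intro k hk
    rw [mem_range] at hk
    have h1 : (a + q).choose (a + k) * (a + k).choose a = (a + q).choose a * q.choose k := by
      have := Nat.choose_mul (n := a + q) (k := a + k) (s := a) (by omega)
      rwa [Nat.add_sub_cancel_left, Nat.add_sub_cancel_left] at this
    have h2 : ((a + q).choose (a + k) : ℂ) * ((a + k).choose a : ℂ) =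
        ((a + q).choose a : ℂ) * (q.choose k : ℂ) := by exact_mod_cast h1
    rw [TT, Nat.add_sub_cancel_left, show a + q - (a + k) = q - k by omega]
    linear_combination (-t) ^ (q - k) * x ^ k * h2

/-- sums over a row of `D` which contains all `(i, j)`, `i ≤ n` -/
theorem sum_row {M : Type*} [AddCommMonoid M] [Module ℂ M] (D : Finset (ℕ × ℕ)) (t : ℂ)
    (n j : ℕ) (hD : ∀ i ≤ n, (i, j) ∈ D) (h : ℕ × ℕ → M) :
    ∑ d ∈ D, (if d.2 = j then TT t n d.1 else 0) • h d =
      ∑ i ∈ range (n + 1), TT t n i • h (i, j) := by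
  symm
  refine sum_of_injOn (fun i => (i, j)) (fun i _ i' _ hii => (Prod.mk.inj hii).1) ?_ ?_ ?_
  · intro i hi
    exact hD i (by have := mem_range.1 (mem_coe.1 hi); omega)
  · intro d _ hd
    by_cases h2 : d.2 = j
    · rw [if_pos h2]
      have : n < d.1 := by
        by_contra hc
        apply hd
        refine ⟨d.1, ?_, ?_⟩
        · rw [mem_coe, mem_range]; omega
        · rw [← h2]
      rw [TT_eq_zero t this, zero_smul]
    · rw [if_neg h2, zero_smul]
  · intro i _
    simp

/-- the kernel of the matrix of conditions has the expected dimension -/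
theorem ker_dim (D : Finset (ℕ × ℕ)) (R : Finset Row) (P : ℕ → ℂ × ℂ) (h : IndAt D R P) :
    R.card + Module.finrank ℂ (LinearMap.ker (Matrix.toLin' (Matrix.of
      (fun (r : R) (d : D) => E r.1.2 d.1 (P r.1.1).1 (P r.1.1).2)))) = D.card := by
  classical
  set M : Matrix R D ℂ := Matrix.of
    (fun (r : R) (d : D) => E r.1.2 d.1 (P r.1.1).1 (P r.1.1).2) with hM
  have hli : LinearIndependent ℂ M.row := by
    rw [Fintype.linearIndependent_iff]
    intro g hg r
    have key := h (fun r => if hr : r ∈ R then g ⟨r, hr⟩ else 0) ?_ r.1 r.2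
    · simpa using key
    · intro d hd
      have h1 := congrFun hg ⟨d, hd⟩
      rw [Finset.sum_apply, Pi.zero_apply] at h1
      rw [← h1, ← sum_coe_sort R]
      apply sum_congr rfl
      intro r' _
      rw [dif_pos r'.2]
      rfl
  have h1 : M.rank = R.card := by rw [hli.rank_matrix, Fintype.card_coe]
  have h2 := LinearMap.finrank_range_add_finrank_ker (Matrix.toLin' M)
  rw [Module.finrank_fintype_fun_eq_card, Fintype.card_coe] at h2
  rw [← h2, ← h1]
  rfl

theorem goalGT : GoalGT := by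
  classical
  intro hCP hWr D m s j0 k0 hD hInd hInj hcard
  obtain ⟨P, hP1, hP2⟩ := hCP.1 _ _ _ _ hInd hInj
  set R := rows m s with hR
  set M : Matrix R D ℂ := Matrix.of
    (fun (r : R) (d : D) => E r.1.2 d.1 (P r.1.1).1 (P r.1.1).2) with hM
  set Ψ : (D → ℂ) →ₗ[ℂ] Polynomial ℂ := Fintype.linearCombination ℂ
    (fun d : D => if d.1.2 = j0 then (Polynomial.X : Polynomial ℂ) ^ d.1.1 else 0) with hΨ
  have hk := ker_dim D R P hP1
  obtain ⟨t, ht⟩ := hWr k0 ((LinearMap.ker (Matrix.toLin' M)).map Ψ) inferInstance (by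
    refine (Submodule.finrank_map_le _ _).trans ?_
    rw [← hM] at hk
    omega)
  refine ⟨fun k => ((P k).1 - t, (P k).2), ?_⟩
  intro c' hc'
  set D' := D.filter (fun x => x.2 = j0 → k0 ≤ x.1) with hD'
  have hDD : D' ⊆ D := filter_subset _ _
  have hrow : ∀ d' ∈ D', ∀ i ≤ d'.1, (i, d'.2) ∈ D := fun d' hd' => hD d' (hDD hd')
  set c : ℕ × ℕ → ℂ := fun d => ∑ d' ∈ D', c' d' * (if d.2 = d'.2 then TT t d'.1 d.1 else 0)
    with hc
  -- exchange of the sums
  have hex : ∀ {N : Type} [AddCommGroup N] [Module ℂ N] (h : ℕ × ℕ → N),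
      ∑ d ∈ D, c d • h d = ∑ d' ∈ D', c' d' • ∑ i ∈ range (d'.1 + 1), TT t d'.1 i • h (i, d'.2) := by
    intro N _ _ h
    simp only [hc, sum_smul]
    rw [sum_comm]
    apply sum_congr rfl
    intro d' hd'
    rw [← sum_row D t d'.1 d'.2 (hrow d' hd') h, smul_sum]
    apply sum_congr rfl
    intro d _
    rw [mul_smul]
  have hcond : ∀ r ∈ R, ∑ d ∈ D, c d * E r.2 d (P r.1).1 (P r.1).2 = 0 := by
    intro r hr
    have h1 := hex (N := ℂ) (fun d => E r.2 d (P r.1).1 (P r.1).2)
    simp only [smul_eq_mul] at h1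
    rw [h1, ← hc' r hr]
    apply sum_congr rfl
    intro d' _
    congr 1
    have h2 := sum_TT_E t d'.1 r.2.1 (P r.1).1
    simp only [E]
    rw [show (d'.1.choose r.2.1 : ℂ) * (d'.2.choose r.2.2 : ℂ) * ((P r.1).1 - t) ^ (d'.1 - r.2.1) *
      (P r.1).2 ^ (d'.2 - r.2.2) = ((d'.1.choose r.2.1 : ℂ) * ((P r.1).1 - t) ^ (d'.1 - r.2.1)) *
      ((d'.2.choose r.2.2 : ℂ) * (P r.1).2 ^ (d'.2 - r.2.2)) by ring, ← h2, sum_mul]
    apply sum_congr rfl
    intro i _
    ring
  -- the row polynomials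
  have hrowp : ∀ j, ∑ d ∈ D, c d • (if d.2 = j then (Polynomial.X : Polynomial ℂ) ^ d.1 else 0) =
      ∑ d' ∈ D', c' d' • (if d'.2 = j then (Polynomial.X - Polynomial.C t) ^ d'.1 else 0) := by
    intro j
    rw [hex (N := Polynomial ℂ) (fun d => if d.2 = j then (Polynomial.X : Polynomial ℂ) ^ d.1 else 0)]
    apply sum_congr rfl
    intro d' _
    congr 1
    by_cases h : d'.2 = j
    · simp only [if_pos h]
      exact sum_TT_X t d'.1
    · simp only [if_neg h, smul_zero, sum_const_zero]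
  have hcoef : ∀ (e : ℕ × ℕ → ℂ) (S : Finset (ℕ × ℕ)), ∀ d ∈ S,
      (∑ x ∈ S, e x • (if x.2 = d.2 then (Polynomial.X : Polynomial ℂ) ^ x.1 else 0)).coeff d.1 =
        e d := by
    intro e S d hd
    rw [Polynomial.finset_sum_coeff, sum_eq_single_of_mem d hd]
    · simp
    · intro x _ hx
      by_cases h : x.2 = d.2
      · have : d.1 ≠ x.1 := fun h' => hx (Prod.ext h'.symm h)
        simp [h, Polynomial.coeff_X_pow, this]
      · simp [h]
  have hker : (fun d : D => c d.1) ∈ LinearMap.ker (Matrix.toLin' M) := by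
    rw [LinearMap.mem_ker, Matrix.toLin'_apply]
    funext r
    rw [Matrix.mulVec, dotProduct, Pi.zero_apply, ← hcond r.1 r.2, ← sum_coe_sort D]
    apply sum_congr rfl
    intro d _
    rw [hM, Matrix.of_apply, mul_comm]
  have hΨc : Ψ (fun d : D => c d.1) =
      ∑ d ∈ D, c d • (if d.2 = j0 then (Polynomial.X : Polynomial ℂ) ^ d.1 else 0) := by
    rw [hΨ, Fintype.linearCombination_apply, ← sum_coe_sort D]
  have hz : Ψ (fun d : D => c d.1) = 0 := by
    apply ht _ (Submodule.mem_map_of_mem hker)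
    rw [hΨc, hrowp j0]
    apply dvd_sum
    intro d' hd'
    apply dvd_smul_of_dvd
    by_cases h : d'.2 = j0
    · rw [if_pos h]
      exact pow_dvd_pow _ ((mem_filter.1 hd').2 h)
    · rw [if_neg h]
      exact dvd_zero _
  rw [hΨc] at hz
  have hc0 : ∀ d ∈ D, d.2 = j0 → c d = 0 := by
    intro d hd h
    rw [← hcoef c D d hd, h, hz, Polynomial.coeff_zero]
  have hc1 : ∀ d ∈ D, c d = 0 := by
    have key := hP2 c (by
      intro r hr
      rw [← hcond r hr]
      apply sum_subset (filter_subset _ _)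
      intro d hd hd'
      have : d.2 = j0 := by
        by_contra hne
        exact hd' (mem_filter.2 ⟨hd, hne⟩)
      rw [hc0 d hd this, zero_mul])
    intro d hd
    by_cases h : d.2 = j0
    · exact hc0 d hd h
    · exact key d (mem_filter.2 ⟨hd, h⟩)
  intro d hd
  have h1 := hrowp d.2
  rw [sum_eq_zero (fun x hx => by rw [hc1 x hx, zero_smul])] at h1
  have h2 : ∑ x ∈ D', c' x • (if x.2 = d.2 then (Polynomial.X : Polynomial ℂ) ^ x.1 else 0) = 0 := by
    have h3 := congrArg (Polynomial.aeval (Polynomial.X + Polynomial.C t)) h1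
    rw [map_zero, map_sum] at h3
    refine Eq.trans ?_ h3.symm
    apply sum_congr rfl
    intro x _
    rw [map_smul]
    congr 1
    by_cases h : x.2 = d.2
    · rw [if_pos h, if_pos h]
      simp
    · rw [if_neg h, if_neg h, map_zero]
  rw [← hcoef c' D' d hd, h2, Polynomial.coeff_zero]

end Pool.Agent.Helper2.EW
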